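import Pool.Agent.Q199.SY.Stm

/-! Project SY: a dilation invariant mean which vanishes on finite sets. -/

open MeasureTheory ProbabilityTheory Set Filter
open scoped ENNReal Topology

namespace Pool.Agent.Q256.SY

open Pool.Agent.Q199.SY

/-- the product attached to an exponent vector -/
def pw {n : ℕ} (e : Fin n → Fin n) : ℕ := ∏ j : Fin n, ((j : ℕ) + 2) ^ (e j : ℕ)

/-- the average -/
noncomputable def Av (n : ℕ) (φ : ℕ → ℝ) : ℝ := (∑ e : Fin n → Fin n, φ (pw e)) / (n : ℝ) ^ n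

lemma npos (n : ℕ) : (0 : ℝ) < (n : ℝ) ^ n := by
  rcases Nat.eq_zero_or_pos n with h | h
  · subst h; simp
  · positivity

lemma Av_abs {φ : ℕ → ℝ} {C : ℝ} (h : ∀ x, |φ x| ≤ C) (n : ℕ) : |Av n φ| ≤ C := by
  rw [Av, abs_div, abs_of_pos (npos n), div_le_iff₀ (npos n)]
  refine (Finset.abs_sum_le_sum_abs _ _).trans ?_
  refine (Finset.sum_le_card_nsmul _ _ C (fun e _ => h _)).trans ?_
  simp [mul_comm]

lemma Av_add (n : ℕ) (φ ψ : ℕ → ℝ) : Av n (fun x => φ x + ψ x) = Av n φ + Av n ψ := by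
  simp only [Av, Finset.sum_add_distrib, add_div]

lemma Av_smul (n : ℕ) (c : ℝ) (φ : ℕ → ℝ) : Av n (fun x => c * φ x) = c * Av n φ := by
  simp only [Av, ← Finset.mul_sum, mul_div_assoc]

lemma Av_one (n : ℕ) : Av n (fun _ => 1) = 1 := by
  simp only [Av, Finset.sum_const, Finset.card_univ, Fintype.card_pi, Fintype.card_fin,
    Finset.prod_const, nsmul_eq_mul, mul_one, Nat.cast_pow]
  exact div_self (npos n).ne'

lemma Av_mono (n : ℕ) {φ ψ : ℕ → ℝ} (h : ∀ x, φ x ≤ ψ x) : Av n φ ≤ Av n ψ :=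
  div_le_div_of_nonneg_right (Finset.sum_le_sum fun _ _ => h _) (npos n).le

lemma Av_dil (n : ℕ) {φ : ℕ → ℝ} {C : ℝ} (h : ∀ x, |φ x| ≤ C) (j0 : Fin n) :
    |Av n (fun x => φ (((j0 : ℕ) + 2) * x)) - Av n φ| ≤ 2 * C / n := by
  have hn : 0 < n := j0.pos
  have hn' : (0 : ℝ) < n := by exact_mod_cast hn
  have key : ∑ e : Fin n → Fin n, (φ (((j0 : ℕ) + 2) * pw e) - φ (pw e)) =
      ∑ g : {j // j ≠ j0} → Fin n,
        (φ (((j0 : ℕ) + 2) ^ n * ∏ j : {j // j ≠ j0}, (((j : Fin n) : ℕ) + 2) ^ (g j : ℕ)) -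
          φ (∏ j : {j // j ≠ j0}, (((j : Fin n) : ℕ) + 2) ^ (g j : ℕ))) := by
    rw [← Equiv.sum_comp (Equiv.funSplitAt j0 (Fin n)).symm, Fintype.sum_prod_type_right]
    refine Finset.sum_congr rfl fun g _ => ?_
    have h1 : ∀ a : Fin n, pw ((Equiv.funSplitAt j0 (Fin n)).symm (a, g)) =
        ((j0 : ℕ) + 2) ^ (a : ℕ) * ∏ j : {j // j ≠ j0}, (((j : Fin n) : ℕ) + 2) ^ (g j : ℕ) := by
      intro a
      rw [pw, ← Finset.mul_prod_erase Finset.univ _ (Finset.mem_univ j0)]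
      congr 1
      · simp [Equiv.funSplitAt, Equiv.piSplitAt]
      · rw [Finset.prod_subtype (Finset.univ.erase j0) (p := fun j => j ≠ j0) (by simp)
          (fun j => ((j : ℕ) + 2) ^ (((Equiv.funSplitAt j0 (Fin n)).symm (a, g) j : Fin n) : ℕ))]
        refine Finset.prod_congr rfl fun j _ => ?_
        have := j.2
        simp [Equiv.funSplitAt, Equiv.piSplitAt, this]
    simp_rw [h1]
    have h2 : ∀ R : ℕ, ∑ a : Fin n, (φ (((j0 : ℕ) + 2) * (((j0 : ℕ) + 2) ^ (a : ℕ) * R)) -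
        φ (((j0 : ℕ) + 2) ^ (a : ℕ) * R)) = φ (((j0 : ℕ) + 2) ^ n * R) - φ R := by
      intro R
      rw [Fin.sum_univ_eq_sum_range (fun a => φ (((j0 : ℕ) + 2) * (((j0 : ℕ) + 2) ^ a * R)) -
        φ (((j0 : ℕ) + 2) ^ a * R)) n]
      have h3 : ∀ a, ((j0 : ℕ) + 2) * (((j0 : ℕ) + 2) ^ a * R) = ((j0 : ℕ) + 2) ^ (a + 1) * R := by
        intro a; ring
      simp_rw [h3]
      rw [Finset.sum_range_sub (fun a => φ (((j0 : ℕ) + 2) ^ a * R))]
      simp
    exact h2 _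
  have h4 : Av n (fun x => φ (((j0 : ℕ) + 2) * x)) - Av n φ =
      (∑ e : Fin n → Fin n, (φ (((j0 : ℕ) + 2) * pw e) - φ (pw e))) / (n : ℝ) ^ n := by
    rw [Av, Av, ← sub_div, Finset.sum_sub_distrib]
  rw [h4, key, abs_div, abs_of_pos (npos n), div_le_div_iff₀ (npos n) hn']
  have h5 : |∑ g : {j // j ≠ j0} → Fin n,
        (φ (((j0 : ℕ) + 2) ^ n * ∏ j : {j // j ≠ j0}, (((j : Fin n) : ℕ) + 2) ^ (g j : ℕ)) -
          φ (∏ j : {j // j ≠ j0}, (((j : Fin n) : ℕ) + 2) ^ (g j : ℕ)))| ≤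
      (n : ℝ) ^ (n - 1) * (2 * C) := by
    refine (Finset.abs_sum_le_sum_abs _ _).trans ?_
    refine (Finset.sum_le_card_nsmul _ _ (2 * C) (fun g _ => ?_)).trans ?_
    · refine (abs_sub _ _).trans ?_
      have h6 := h (((j0 : ℕ) + 2) ^ n * ∏ j : {j // j ≠ j0}, (((j : Fin n) : ℕ) + 2) ^ (g j : ℕ))
      have h7 := h (∏ j : {j // j ≠ j0}, (((j : Fin n) : ℕ) + 2) ^ (g j : ℕ))
      linarith
    · simp
  calc _ ≤ (n : ℝ) ^ (n - 1) * (2 * C) * n := mul_le_mul_of_nonneg_right h5 hn'.le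
    _ = 2 * C * ((n : ℝ) ^ (n - 1) * n) := by ring
    _ = 2 * C * (n : ℝ) ^ n := by rw [← pow_succ, Nat.sub_add_cancel hn]

lemma exists_lim {a : ℕ → ℝ} {C : ℝ} (h : ∀ n, |a n| ≤ C) :
    ∃ x, Tendsto a (hyperfilter ℕ : Filter ℕ) (𝓝 x) := by
  have h1 : Icc (-C) C ∈ ((hyperfilter ℕ).map a : Filter ℝ) := by
    rw [Ultrafilter.coe_map, Filter.mem_map]
    exact Filter.Eventually.of_forall fun n => abs_le.1 (h n)
  obtain ⟨x, _, hx⟩ := isCompact_Icc.ultrafilter_le_nhds' _ h1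
  exact ⟨x, hx⟩

/-- the mean -/
noncomputable def mn (φ : ℕ → ℝ) : ℝ := limUnder (hyperfilter ℕ : Filter ℕ) (fun n => Av n φ)

lemma mn_tendsto {φ : ℕ → ℝ} (h : Bd φ) :
    Tendsto (fun n => Av n φ) (hyperfilter ℕ : Filter ℕ) (𝓝 (mn φ)) := by
  obtain ⟨C, hC⟩ := h
  obtain ⟨x, hx⟩ := exists_lim (Av_abs hC)
  rw [mn, hx.limUnder_eq]
  exact hx

lemma mn_eq {φ : ℕ → ℝ} {x : ℝ}
    (h : Tendsto (fun n => Av n φ) (hyperfilter ℕ : Filter ℕ) (𝓝 x)) : mn φ = x :=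
  h.limUnder_eq

lemma isMean_mn : IsMean mn where
  add f g hf hg := by
    apply mn_eq
    simp_rw [Av_add]
    exact (mn_tendsto hf).add (mn_tendsto hg)
  smul c f hf := by
    apply mn_eq
    simp_rw [Av_smul]
    exact (mn_tendsto hf).const_mul c
  one := by
    apply mn_eq
    simp_rw [Av_one]
    exact tendsto_const_nhds
  mono f g hf hg h := le_of_tendsto_of_tendsto' (mn_tendsto hf) (mn_tendsto hg) fun n => Av_mono n h

lemma mn_dil (m : ℕ) (hm : 1 ≤ m) (φ : ℕ → ℝ) (hφ : Bd φ) : mn (fun x => φ (m * x)) = mn φ := by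
  rcases Nat.lt_or_ge m 2 with h2 | h2
  · have : m = 1 := by omega
    subst this
    simp
  obtain ⟨C, hC⟩ := hφ
  have hb : Bd (fun x => φ (m * x)) := ⟨C, fun x => hC _⟩
  have h1 := (mn_tendsto hb).sub (mn_tendsto ⟨C, hC⟩)
  have h3 : Tendsto (fun n => Av n (fun x => φ (m * x)) - Av n φ) atTop (𝓝 0) := by
    refine squeeze_zero_norm' (a := fun n : ℕ => 2 * C / n) ?_
      (tendsto_const_div_atTop_nhds_zero_nat _)
    filter_upwards [eventually_ge_atTop (m + 1)] with n hn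
    have hj : m - 2 < n := by omega
    have h4 := Av_dil n hC ⟨m - 2, hj⟩
    have h5 : m - 2 + 2 = m := by omega
    simp only [h5] at h4
    exact h4
  have h4 : (hyperfilter ℕ : Filter ℕ) ≤ atTop := by
    rw [← Nat.cofinite_eq_atTop]
    exact hyperfilter_le_cofinite
  have h5 := tendsto_nhds_unique h1 (h3.mono_left h4)
  linarith

theorem t_mean : S_mean := by
  refine ⟨mn, isMean_mn, ?_, mn_dil⟩
  intro M
  have hb : Bd (fun x : ℕ => if x ≤ M then (1 : ℝ) else 0) :=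
    Bd.of01 fun x => by split_ifs <;> norm_num
  rw [← mn_dil (M + 1) (by omega) _ hb]
  apply mn_eq
  have : ∀ n, Av n (fun x => if (M + 1) * x ≤ M then (1 : ℝ) else 0) = 0 := by
    intro n
    rw [Av, Finset.sum_eq_zero, zero_div]
    intro e _
    rw [if_neg]
    have h1 : 0 < pw e := Finset.prod_pos fun j _ => by positivity
    have h2 : M + 1 ≤ (M + 1) * pw e := Nat.le_mul_of_pos_right _ h1
    omega
  simp_rw [this]
  exact tendsto_const_nhds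

end Pool.Agent.Q256.SY
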