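import Pool.Agent.Q199.SY.Stm

/-! Project SY: moments determine the law of a pair of good points. -/

open MeasureTheory ProbabilityTheory Set
open scoped ENNReal

namespace Pool.Agent.Q256.SY

open Pool.Agent.Q199.SY

/-- the function is almost everywhere one and the same finite combination of moments -/
def Lc (P Q : Measure (K × K)) (g : K × K → ℝ) : Prop :=
  ∃ (ι : Type) (_ : Fintype ι) (c : ι → ℝ) (s t : ι → Tm),
    (∀ᵐ p ∂P, g p = ∑ i, c i * ((p.1 (s i) : ℝ) * (p.2 (t i) : ℝ))) ∧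
    (∀ᵐ p ∂Q, g p = ∑ i, c i * ((p.1 (s i) : ℝ) * (p.2 (t i) : ℝ)))

lemma Lc.add {P Q : Measure (K × K)} {g h : K × K → ℝ} (hg : Lc P Q g) (hh : Lc P Q h) :
    Lc P Q (g + h) := by
  obtain ⟨ι, hι, c, s, t, h1, h2⟩ := hg
  obtain ⟨κ, hκ, c', s', t', h1', h2'⟩ := hh
  refine ⟨ι ⊕ κ, inferInstance, Sum.elim c c', Sum.elim s s', Sum.elim t t', ?_, ?_⟩
  · filter_upwards [h1, h1'] with p hp hp'
    simp [Fintype.sum_sum_type, hp, hp']
  · filter_upwards [h2, h2'] with p hp hp'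
    simp [Fintype.sum_sum_type, hp, hp']

lemma good_mul {p : K × K} (h : Good p.1 ∧ Good p.2) (s t s' t' : Tm) :
    ((p.1 s : ℝ) * (p.2 t : ℝ)) * ((p.1 s' : ℝ) * (p.2 t' : ℝ)) =
      (p.1 (.mul s s') : ℝ) * (p.2 (.mul t t') : ℝ) := by
  rw [h.1.2, h.2.2]; ring

lemma Lc.mul {P Q : Measure (K × K)} {g h : K × K → ℝ} (hP : ∀ᵐ p ∂P, Good p.1 ∧ Good p.2)
    (hQ : ∀ᵐ p ∂Q, Good p.1 ∧ Good p.2) (hg : Lc P Q g) (hh : Lc P Q h) :
    Lc P Q (g * h) := by
  obtain ⟨ι, hι, c, s, t, h1, h2⟩ := hg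
  obtain ⟨κ, hκ, c', s', t', h1', h2'⟩ := hh
  refine ⟨ι × κ, inferInstance, fun x => c x.1 * c' x.2, fun x => .mul (s x.1) (s' x.2),
    fun x => .mul (t x.1) (t' x.2), ?_, ?_⟩
  · filter_upwards [h1, h1', hP] with p hp hp' hG
    rw [Pi.mul_apply, hp, hp', Fintype.sum_mul_sum, Fintype.sum_prod_type]
    refine Finset.sum_congr rfl fun i _ => Finset.sum_congr rfl fun j _ => ?_
    rw [← good_mul hG]; ring
  · filter_upwards [h2, h2', hQ] with p hp hp' hG
    rw [Pi.mul_apply, hp, hp', Fintype.sum_mul_sum, Fintype.sum_prod_type]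
    refine Finset.sum_congr rfl fun i _ => Finset.sum_congr rfl fun j _ => ?_
    rw [← good_mul hG]; ring

lemma Lc.const {P Q : Measure (K × K)} (hP : ∀ᵐ p ∂P, Good p.1 ∧ Good p.2)
    (hQ : ∀ᵐ p ∂Q, Good p.1 ∧ Good p.2) (r : ℝ) : Lc P Q (fun _ => r) := by
  refine ⟨Unit, inferInstance, fun _ => r, fun _ => .one, fun _ => .one, ?_, ?_⟩
  · filter_upwards [hP] with p hG
    simp [hG.1.1, hG.2.1]
  · filter_upwards [hQ] with p hG
    simp [hG.1.1, hG.2.1]

lemma integrable_mom (P : Measure (K × K)) [IsProbabilityMeasure P] (s t : Tm) :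
    Integrable (fun p : K × K => (p.1 s : ℝ) * (p.2 t : ℝ)) P := by
  have hc : Continuous (fun p : K × K => (p.1 s : ℝ) * (p.2 t : ℝ)) := by fun_prop
  exact (BoundedContinuousFunction.mkOfCompact ⟨_, hc⟩).integrable P

lemma Lc.integral {P Q : Measure (K × K)} [IsProbabilityMeasure P] [IsProbabilityMeasure Q]
    {g : K × K → ℝ} (hg : Lc P Q g)
    (h : ∀ s t : Tm, ∫ p, (p.1 s : ℝ) * (p.2 t : ℝ) ∂P = ∫ p, (p.1 s : ℝ) * (p.2 t : ℝ) ∂Q) :
    ∫ p, g p ∂P = ∫ p, g p ∂Q := by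
  obtain ⟨ι, hι, c, s, t, h1, h2⟩ := hg
  rw [integral_congr_ae h1, integral_congr_ae h2, integral_finsetSum, integral_finsetSum]
  · refine Finset.sum_congr rfl fun i _ => ?_
    rw [integral_const_mul, integral_const_mul, h]
  · intro i _
    exact (integrable_mom Q _ _).const_mul _
  · intro i _
    exact (integrable_mom P _ _).const_mul _

/-- first coordinates -/
noncomputable def X1 (s : Tm) : BoundedContinuousFunction (K × K) ℝ :=
  BoundedContinuousFunction.mkOfCompact ⟨fun p : K × K => (p.1 s : ℝ), by fun_prop⟩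

/-- second coordinates -/
noncomputable def X2 (s : Tm) : BoundedContinuousFunction (K × K) ℝ :=
  BoundedContinuousFunction.mkOfCompact ⟨fun p : K × K => (p.2 s : ℝ), by fun_prop⟩

theorem t_mom : S_mom := by
  intro P Q _ _ hP hQ h
  let A : StarSubalgebra ℝ (BoundedContinuousFunction (K × K) ℝ) :=
    StarAlgebra.adjoin ℝ (Set.range X1 ∪ Set.range X2)
  have hsep : (A.map (BoundedContinuousFunction.toContinuousMapStarₐ ℝ)).SeparatesPoints := by
    intro p q hpq
    have h3 : (∃ s, (p.1 s : ℝ) ≠ q.1 s) ∨ ∃ s, (p.2 s : ℝ) ≠ q.2 s := by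
      by_contra hne
      push Not at hne
      apply hpq
      refine Prod.ext (funext fun s => Subtype.ext (hne.1 s)) (funext fun s => Subtype.ext (hne.2 s))
    rcases h3 with ⟨s, hs⟩ | ⟨s, hs⟩
    · refine ⟨X1 s, ⟨X1 s, ?_, rfl⟩, hs⟩
      exact ⟨X1 s, StarAlgebra.subset_adjoin _ _ (Or.inl ⟨s, rfl⟩), rfl⟩
    · refine ⟨X2 s, ⟨X2 s, ?_, rfl⟩, hs⟩
      exact ⟨X2 s, StarAlgebra.subset_adjoin _ _ (Or.inr ⟨s, rfl⟩), rfl⟩
  refine ext_of_forall_mem_subalgebra_integral_eq_of_polish hsep ?_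
  intro g hg
  apply Lc.integral _ h
  induction hg using StarAlgebra.adjoin_induction with
  | mem x hx =>
      rcases hx with ⟨s, rfl⟩ | ⟨s, rfl⟩
      · refine ⟨Unit, inferInstance, fun _ => 1, fun _ => s, fun _ => .one, ?_, ?_⟩
        · filter_upwards [hP] with p hG
          simp [hG.2.1, X1]
        · filter_upwards [hQ] with p hG
          simp [hG.2.1, X1]
      · refine ⟨Unit, inferInstance, fun _ => 1, fun _ => .one, fun _ => s, ?_, ?_⟩
        · filter_upwards [hP] with p hG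
          simp [hG.1.1, X2]
        · filter_upwards [hQ] with p hG
          simp [hG.1.1, X2]
  | algebraMap r => exact Lc.const hP hQ r
  | add x y _ _ hx hy => exact hx.add hy
  | mul x y _ _ hx hy => exact hx.mul hP hQ hy
  | star x _ hx => simpa using hx

end Pool.Agent.Q256.SY
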